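import Mathlib

namespace Pool.Agent.Results.MP_0edd48_al.No

open FreeGroup (of lift lift_apply_of)

/-- `IA(F(n))`: automorphisms acting trivially on the abelianization. -/
def IA (n : ℕ) : Subgroup (MulAut (FreeGroup (Fin n))) where
  carrier := {φ | ∀ g, Abelianization.of (φ g) = Abelianization.of g}
  mul_mem' := fun {a b} ha hb g => by
    rw [MulAut.mul_apply, ha, hb]
  one_mem' := fun _ => rfl
  inv_mem' := fun {a} ha g => by
    rw [← ha (a⁻¹ g), MulAut.apply_inv_self]

/-- `C(n)`: generated by the `K_ij`. -/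
def C (n : ℕ) : Subgroup (MulAut (FreeGroup (Fin n))) :=
  Subgroup.closure {φ | ∃ i j : Fin n, i ≠ j ∧ φ (of i) = of j * of i * (of j)⁻¹ ∧
    ∀ m, m ≠ i → φ (of m) = of m}

/-- `T(n)`: generated by the `K_ijk`. -/
def T (n : ℕ) : Subgroup (MulAut (FreeGroup (Fin n))) :=
  Subgroup.closure {φ | ∃ i j k : Fin n, i ≠ j ∧ j < k ∧ k ≠ i ∧
    φ (of i) = of i * (of j * of k * (of j)⁻¹ * (of k)⁻¹) ∧ ∀ m, m ≠ i → φ (of m) = of m}

/-- The normal closure of `C(n)` in `IA(F(n))`: generated by the conjugates of elements of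
`C(n)` by elements of `IA(F(n))`. -/
def Cbar (n : ℕ) : Subgroup (MulAut (FreeGroup (Fin n))) :=
  Subgroup.closure {φ | ∃ ψ ∈ IA n, ∃ c ∈ C n, φ = ψ * c * ψ⁻¹}

abbrev Wd := List (Fin 3 × Bool)

def app (f : Fin 3 → Wd) (L : Wd) : Wd :=
  FreeGroup.reduce (L.flatMap fun q => if q.2 then f q.1 else FreeGroup.invRev (f q.1))

def tab : Fin 6 × Bool → Fin 3 → Wd
  | (0, b), 0 => [(1, b), (0, true), (1, !b)]
  | (1, b), 0 => [(2, b), (0, true), (2, !b)]
  | (2, b), 1 => [(0, b), (1, true), (0, !b)]
  | (3, b), 1 => [(2, b), (1, true), (2, !b)]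
  | (4, true), 0 => [(0, true), (1, true), (2, true), (1, false), (2, false)]
  | (4, false), 0 => [(0, true), (2, true), (1, true), (2, false), (1, false)]
  | (5, true), 1 => [(1, true), (0, true), (2, true), (0, false), (2, false)]
  | (5, false), 1 => [(1, true), (2, true), (0, true), (2, false), (0, false)]
  | _, x => [(x, true)]

def run (W : List (Fin 6 × Bool)) (x : Fin 3) : Wd :=
  W.foldr (fun s L => app (tab s) L) [(x, true)]

def rel : List (Fin 6 × Bool) := [(4, false), (2, true), (5, true), (1, true), (0, true), (4, true), (1, false), (0, false), (3, true), (5, false), (1, false), (5, false), (2, false), (4, true), (1, false), (2, true), (5, true), (1, true), (0, true), (1, true), (4, false), (0, false), (2, false), (3, false)]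

def proj (W : List (Fin 6 × Bool)) : List (Fin 6 × Bool) := W.filter fun s => 4 ≤ s.1

theorem run_rel : ∀ x, run rel x = [(x, true)] := by decide +kernel

theorem run_proj : FreeGroup.reduce (run (proj rel) 0) ≠ FreeGroup.reduce [(0, true)] := by
  decide +kernel

theorem tab_inv : ∀ s : Fin 6 × Bool, ∀ x, app (tab s) (tab (s.1, !s.2) x) = [(x, true)] := by
  decide +kernel

section
variable {n : ℕ} (hn : 3 ≤ n)

def ev (L : Wd) : FreeGroup (Fin n) := FreeGroup.map (Fin.castLE hn) (FreeGroup.mk L)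

theorem ev_cons (q : Fin 3 × Bool) (L : Wd) :
    ev hn (q :: L) = (if q.2 then of (Fin.castLE hn q.1) else (of (Fin.castLE hn q.1))⁻¹) *
      ev hn L := by
  have : FreeGroup.mk (q :: L) = FreeGroup.mk [q] * FreeGroup.mk L := by simp
  rw [ev, this, map_mul]
  obtain ⟨x, b⟩ := q
  cases b <;> rfl

theorem ev_nil : ev hn [] = 1 := map_one _

theorem ev_one (x : Fin 3) : ev hn [(x, true)] = of (Fin.castLE hn x) := by
  simp [ev_cons, ev_nil]

def En (f : Fin 3 → Wd) : FreeGroup (Fin n) →* FreeGroup (Fin n) :=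
  lift fun m => if h : m.val < 3 then ev hn (f ⟨m.val, h⟩) else of m

theorem En_of (f : Fin 3 → Wd) (x : Fin 3) : En hn f (of (Fin.castLE hn x)) = ev hn (f x) := by
  simp [En]

theorem En_ev (f : Fin 3 → Wd) (L : Wd) : En hn f (ev hn L) = ev hn (app f L) := by
  have h : ev hn (app f L) =
      ev hn (L.flatMap fun q => if q.2 then f q.1 else FreeGroup.invRev (f q.1)) := by
    rw [ev, app, FreeGroup.reduce.self]; rfl
  rw [h]
  clear h
  induction L with
  | nil => simp [ev_nil]
  | cons q L ih =>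
    rw [ev_cons, map_mul, ih, List.flatMap_cons]
    conv_rhs => rw [ev, ← FreeGroup.mul_mk, map_mul]
    congr 1
    obtain ⟨x, b⟩ := q
    cases b
    · simp only [Bool.false_eq_true, if_false, map_inv, En_of]
      rw [← FreeGroup.inv_mk, map_inv]; rfl
    · simp only [if_true, En_of]; rfl

theorem En_comp (f g : Fin 3 → Wd) :
    (En hn f).comp (En hn g) = En hn (fun x => app f (g x)) := by
  ext m
  by_cases h : m.val < 3
  · simp [En, h, ← En_ev]
  · simp [En, h]

theorem En_id (f : Fin 3 → Wd) (hf : ∀ x, f x = [(x, true)]) : En hn f = MonoidHom.id _ := by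
  ext m
  by_cases h : m.val < 3
  · simp [En, h, hf, ev_one]
  · simp [En, h]

def aut (s : Fin 6 × Bool) : MulAut (FreeGroup (Fin n)) :=
  MonoidHom.toMulEquiv (En hn (tab s)) (En hn (tab (s.1, !s.2)))
    (by rw [En_comp]; exact En_id hn _ (by simpa using tab_inv (s.1, !s.2)))
    (by rw [En_comp]; exact En_id hn _ (tab_inv s))

theorem aut_false (i : Fin 6) : aut hn (i, false) = (aut hn (i, true))⁻¹ := by
  ext g; rfl

theorem prod_apply (W : List (Fin 6 × Bool)) (g : FreeGroup (Fin n)) :
    (W.map (aut hn)).prod g = En hn (run W) g := by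
  induction W generalizing g with
  | nil => rw [En_id hn (run []) (fun x => rfl)]; rfl
  | cons s W ih =>
    rw [List.map_cons, List.prod_cons, MulAut.mul_apply, ih]
    exact DFunLike.congr_fun (En_comp hn (tab s) (run W)) g

theorem aut_fix (s : Fin 6 × Bool) (i : Fin 3) (hi : ∀ x, x ≠ i → tab s x = [(x, true)])
    (m : Fin n) (hm : m ≠ Fin.castLE hn i) : aut hn s (of m) = of m := by
  change En hn (tab s) (of m) = of m
  by_cases h : m.val < 3
  · have : (⟨m.val, h⟩ : Fin 3) ≠ i := fun e => hm (by subst e; rfl)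
    simp [En, h, hi _ this, ev_one]
  · simp [En, h]

theorem aut_C1 (k : Fin 6) (i j : Fin 3) (hij : i ≠ j)
    (h1 : tab (k, true) i = [(j, true), (i, true), (j, false)])
    (hi : ∀ x, x ≠ i → tab (k, true) x = [(x, true)]) : aut hn (k, true) ∈ C n := by
  refine Subgroup.subset_closure ⟨Fin.castLE hn i, Fin.castLE hn j,
    fun e => hij (Fin.castLE_injective hn e), ?_, aut_fix hn _ i hi⟩
  change En hn (tab (k, true)) (of (Fin.castLE hn i)) = _
  rw [En_of, h1]
  simp [ev_cons, ev_nil, mul_assoc]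

theorem aut_T1 (k : Fin 6) (i j l : Fin 3) (hij : i ≠ j) (hjl : j < l) (hli : l ≠ i)
    (h1 : tab (k, true) i = [(i, true), (j, true), (l, true), (j, false), (l, false)])
    (hi : ∀ x, x ≠ i → tab (k, true) x = [(x, true)]) :
    aut hn (k, true) ∈ T n ∧ aut hn (k, true) ∈ IA n := by
  have h2 : aut hn (k, true) (of (Fin.castLE hn i)) = of (Fin.castLE hn i) *
      (of (Fin.castLE hn j) * of (Fin.castLE hn l) * (of (Fin.castLE hn j))⁻¹ *
        (of (Fin.castLE hn l))⁻¹) := by
    change En hn (tab (k, true)) (of (Fin.castLE hn i)) = _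
    rw [En_of, h1]
    simp [ev_cons, ev_nil, mul_assoc]
  refine ⟨Subgroup.subset_closure ⟨Fin.castLE hn i, Fin.castLE hn j, Fin.castLE hn l,
    fun e => hij (Fin.castLE_injective hn e), hjl, fun e => hli (Fin.castLE_injective hn e), h2,
    aut_fix hn _ i hi⟩, ?_⟩
  have : Abelianization.of.comp (aut hn (k, true)).toMonoidHom = Abelianization.of := by
    ext m
    change Abelianization.of (aut hn (k, true) (of m)) = Abelianization.of (of m)
    by_cases h : m = Fin.castLE hn i
    · subst h
      rw [h2]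
      simp only [map_mul, map_inv]
      rw [mul_inv_cancel_comm, mul_inv_cancel, mul_one]
    · rw [aut_fix hn _ i hi m h]
  exact fun g => DFunLike.congr_fun this g

theorem aut_C (s : Fin 6 × Bool) (hs : ¬ 4 ≤ s.1) : aut hn s ∈ C n := by
  obtain ⟨k, b⟩ := s
  have h : aut hn (k, true) ∈ C n := by
    change ¬ 4 ≤ k at hs
    fin_cases k
    · exact aut_C1 hn _ 0 1 (by decide) rfl (by decide)
    · exact aut_C1 hn _ 0 2 (by decide) rfl (by decide)
    · exact aut_C1 hn _ 1 0 (by decide) rfl (by decide)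
    · exact aut_C1 hn _ 1 2 (by decide) rfl (by decide)
    · exact absurd (by decide) hs
    · exact absurd (by decide) hs
  cases b
  · rw [aut_false]; exact (C n).inv_mem h
  · exact h

theorem aut_T (s : Fin 6 × Bool) (hs : 4 ≤ s.1) : aut hn s ∈ T n ∧ aut hn s ∈ IA n := by
  obtain ⟨k, b⟩ := s
  have h : aut hn (k, true) ∈ T n ∧ aut hn (k, true) ∈ IA n := by
    change 4 ≤ k at hs
    fin_cases k
    · exact absurd hs (by decide)
    · exact absurd hs (by decide)
    · exact absurd hs (by decide)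
    · exact absurd hs (by decide)
    · exact aut_T1 hn _ 0 1 2 (by decide) (by decide) (by decide) rfl (by decide)
    · exact aut_T1 hn _ 1 0 2 (by decide) (by decide) (by decide) rfl (by decide)
  cases b
  · rw [aut_false]; exact ⟨(T n).inv_mem h.1, (IA n).inv_mem h.2⟩
  · exact h

theorem conj_Cbar {ψ φ : MulAut (FreeGroup (Fin n))} (hψ : ψ ∈ IA n) (hφ : φ ∈ Cbar n) :
    ψ * φ * ψ⁻¹ ∈ Cbar n := by
  induction hφ using Subgroup.closure_induction with
  | mem x hx =>
    obtain ⟨χ, hχ, c, hc, rfl⟩ := hx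
    exact Subgroup.subset_closure ⟨ψ * χ, (IA n).mul_mem hψ hχ, c, hc, by group⟩
  | one => simpa using (Cbar n).one_mem
  | mul a b _ _ ha hb => simpa [mul_assoc] using (Cbar n).mul_mem ha hb
  | inv a _ ha => simpa [mul_assoc] using (Cbar n).inv_mem ha

theorem mod_Cbar (W : List (Fin 6 × Bool)) :
    (W.map (aut hn)).prod * (((proj W).map (aut hn)).prod)⁻¹ ∈ Cbar n ∧
      ((proj W).map (aut hn)).prod ∈ T n := by
  induction W with
  | nil => exact ⟨by simpa [proj] using (Cbar n).one_mem, by simpa [proj] using (T n).one_mem⟩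
  | cons s W ih =>
    by_cases hs : 4 ≤ s.1
    · have e : proj (s :: W) = s :: proj W := by simp [proj, hs]
      rw [e]
      simp only [List.map_cons, List.prod_cons]
      refine ⟨?_, (T n).mul_mem (aut_T hn s hs).1 ih.2⟩
      simpa [mul_assoc] using conj_Cbar (aut_T hn s hs).2 ih.1
    · have e : proj (s :: W) = proj W := by simp [proj, hs]
      rw [e]
      simp only [List.map_cons, List.prod_cons]
      refine ⟨?_, ih.2⟩
      rw [mul_assoc]
      exact (Cbar n).mul_mem
        (Subgroup.subset_closure ⟨1, (IA n).one_mem, _, aut_C hn s hs, by simp⟩) ih.1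

end

theorem result : ∀ n : ℕ, 3 ≤ n → ∃ φ : MulAut (FreeGroup (Fin n)),
    φ ≠ 1 ∧ φ ∈ Cbar n ∧ φ ∈ T n := by
  intro n hn
  obtain ⟨h1, h2⟩ := mod_Cbar hn rel
  have h3 : (rel.map (aut hn)).prod = 1 := by
    ext g
    rw [prod_apply, En_id hn _ run_rel]; rfl
  rw [h3, one_mul, inv_mem_iff] at h1
  refine ⟨_, fun h => run_proj ?_, h1, h2⟩
  have h4 := prod_apply hn (proj rel) (of (Fin.castLE hn 0))
  rw [h, En_of, MulAut.one_apply, ← ev_one] at h4
  have h5 := FreeGroup.map_injective (Fin.castLE_injective hn) h4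
  exact (FreeGroup.reduce.sound h5).symm

end Pool.Agent.Results.MP_0edd48_al.No
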